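import Pool.Agent.R6.Trade.Vec

/-!
Every 3-trade robust simple game with at most three types of voters is weighted.
-/

namespace Pool.Agent.Results.MP_35f484_co.ThreeTypes

open Pool.Agent.R6.Trade

/-- **Every 3-trade robust simple game with at most three types of voters is weighted.**
Here a type is a class of equally desirable voters; completeness of the game is not needed. -/
theorem result (N : Type) [Fintype N] [DecidableEq N] (W : Finset N → Prop) (hS : IsSimple W)
    (t : ℕ) (ht : t ≤ 3) (hT : HasTypes W t) (h3 : TradeRobust W 3) : Weighted W := by
  obtain ⟨τ, -, hτ⟩ := hT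
  refine weighted_of_three_types hS (fun v => Fin.castLE ht (τ v)) (fun a b h => ?_) h3
  exact ((hτ a b).1 (Fin.castLE_injective ht h)).1

end Pool.Agent.Results.MP_35f484_co.ThreeTypes
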